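import Pool.Agent.H20.Mix5

namespace Pool.Agent.Results.MP_42bdc2_co.Finite

open H20.Mix

theorem result : ∃ (P : ℕ → Set (Σ m : ℕ, SimpleGraph (Fin m))) (f : ℕ → ℕ), ∀ k, 1 ≤ k →
    (P k).Finite ∧ (∀ H ∈ P k, ∃ a b, H.2.Adj a b) ∧
    ∀ (V : Type) [Fintype V] [LinearOrder V] (G : SimpleGraph V),
      ((∀ H ∈ P k, ¬ Contains G H.2) → mn G < f k) ∧ ((∃ H ∈ P k, Contains G H.2) → k ≤ mn G) := by
  choose g f h using bound
  refine ⟨fun k => {H | H.1 ≤ g k ∧ k ≤ mn H.2}, f, fun k hk => ⟨?_, fun H hH => ?_, fun V _ _ G =>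
    ⟨fun q => h k V G fun m hm H c => not_le.1 fun p => q ⟨m, H⟩ ⟨hm, p⟩ c,
      fun ⟨H, a, b⟩ => a.2.trans (mn_mono b)⟩⟩⟩
  · refine ((Set.finite_Iic (g k)).biUnion fun m _ => Set.finite_range (Sigma.mk m)).subset ?_
    rintro ⟨m, H⟩ hH
    exact Set.mem_biUnion hH.1 ⟨H, rfl⟩
  · by_contra hn
    have : mn H.2 ≤ 0 := Nat.sInf_le ⟨fun _ => 0, fun e he => absurd ⟨_, _, he.2⟩ hn,
      fun i => .inl fun e he => absurd ⟨_, _, he.1.2⟩ hn⟩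
    have := hH.2
    omega

end Pool.Agent.Results.MP_42bdc2_co.Finite
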